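import Pool.Agent.H85.PS.Defs

/-!
Targets of the board psv_modules (MP_3cf473_nt), part C: lower bounds for polynomials in the
logarithms of close integers, by the method of Siegel, Galochkin and Chudnovsky.
-/

set_option autoImplicit false

open Polynomial Finset

namespace Pool.Agent.H85.PS

noncomputable section

/-- Leibniz rule and additivity -/
def T_LEI : Prop := ∀ (s : ℕ) (b : Fin s → ℚ) (g : ℚ[X]) (A B : Vec s),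
  (nab b (fun e => g * A e) = fun e => th b * derivative g * A e + g * nab b A e) ∧
  nab b (A + B) = nab b A + nab b B

/-- supports and degrees of the iterates -/
def T_SPD : Prop := ∀ (s D m : ℕ) (b : Fin s → ℚ) (A : Vec s), Sup D A → Deg m A →
  ∀ i, Sup D (nabI b i A) ∧ Deg (m + i * s) (nabI b i A)

/-- the derivation corresponds to `θ d/dX` -/
def T_EVN : Prop := ∀ (s D : ℕ) (b : Fin s → ℚ) (A : Vec s), Sup D A →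
  evf b D (nab b A) = ((th b : ℚ[X]) : PowerSeries ℚ) * PowerSeries.derivative ℚ (evf b D A)

/-- orders of the iterates -/
def T_EVI : Prop := ∀ (s D T : ℕ) (b : Fin s → ℚ) (A : Vec s), Sup D A →
  (PowerSeries.X : PowerSeries ℚ) ^ T ∣ evf b D A →
  ∀ i, (PowerSeries.X : PowerSeries ℚ) ^ (T - i) ∣ evf b D (nabI b i A)

def T_PL1 : Prop := ∀ a w : ℚ[X], a ≠ 0 → a * derivative w = derivative a * w →
  ∃ c : ℚ, w = C c * a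

/-- the residues of `∑ κ k b k / (1 + b k z)` vanish if it is the derivative of `w / a` -/
def T_PL2 : Prop := ∀ (s : ℕ) (b : Fin s → ℚ), Function.Injective b → (∀ k, b k ≠ 0) →
  ∀ (a w : ℚ[X]) (κ : Fin s → ℚ), a ≠ 0 →
  th b * (a * derivative w - derivative a * w) = a ^ 2 * ∑ k, C (κ k) * thk b k → ∀ k, κ k = 0

/-- a nonzero stable module contains a nonzero multiple of the constant polynomial `1` -/
def T_ONE : Prop := ∀ (s D : ℕ) (b : Fin s → ℚ), Function.Injective b → (∀ k, b k ≠ 0) →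
  ∀ W : Submodule ℚ[X] (Vec s), (∀ A ∈ W, Sup D A) → (∀ A ∈ W, nab b A ∈ W) → W ≠ ⊥ →
  ∃ g : ℚ[X], g ≠ 0 ∧ (fun e => if e = 0 then g else 0) ∈ W

/-- if the determinant vanishes, `1` is a combination of fewer derivatives, Cramer's rule -/
def T_CYC : Prop := ∀ (s D : ℕ) (b : Fin s → ℚ), Function.Injective b → (∀ k, b k ≠ 0) →
  ∀ A : Vec s, Sup D A → A ≠ 0 → Dt b D A = 0 →
  ∃ (l : ℕ) (J : Fin l → (Fin s → ℕ)) (c : Fin l → ℚ[X]), l < MM s D ∧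
    Matrix.det (Matrix.of fun i j : Fin l => nabI b i A (J j)) ≠ 0 ∧
    ∀ e, ∑ i, c i * nabI b i A e =
      if e = 0 then Matrix.det (Matrix.of fun i j : Fin l => nabI b i A (J j)) else 0

/-- the determinant does not vanish -/
def T_RNK : Prop := ∀ (s D m T : ℕ) (b : Fin s → ℚ), Function.Injective b → (∀ k, b k ≠ 0) →
  ∀ A : Vec s, Sup D A → Deg m A → A ≠ 0 →
  (PowerSeries.X : PowerSeries ℚ) ^ T ∣ evf b D A →
  (MM s D - 1) * m + MM s D * MM s D * s + MM s D < T → Dt b D A ≠ 0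

/-- degree of the determinant and order at zero -/
def T_DDV : Prop := ∀ (s D m T : ℕ) (b : Fin s → ℚ) (A : Vec s), Sup D A → Deg m A →
  (PowerSeries.X : PowerSeries ℚ) ^ T ∣ evf b D A →
  (Dt b D A).natDegree ≤ MM s D * m + MM s D * MM s D * s ∧
  (X : ℚ[X]) ^ (T + 1 - MM s D) ∣ Dt b D A

/-- the derivatives span at the point `z0` -/
def T_SPZ : Prop := ∀ (s D : ℕ) (b : Fin s → ℚ) (A : Vec s) (z0 : ℚ), Sup D A →
  (th b).eval z0 ≠ 0 → Dt b D A ≠ 0 → ∀ Λ : (Fin s → ℕ) → ℚ,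
  (∀ i < MM s D + rootMultiplicity z0 (Dt b D A),
    ∑ e ∈ II s D, Λ e * (nabI b i A e).eval z0 = 0) → ∀ e ∈ II s D, Λ e = 0

/-- the zero estimate -/
def T_SPF : Prop := ∀ (s D m T : ℕ) (b : Fin s → ℚ), Function.Injective b → (∀ k, b k ≠ 0) →
  ∀ (A : Vec s) (z0 : ℚ), z0 ≠ 0 → (th b).eval z0 ≠ 0 → Sup D A → Deg m A → A ≠ 0 →
  (PowerSeries.X : PowerSeries ℚ) ^ T ∣ evf b D A →
  (MM s D - 1) * m + MM s D * MM s D * s + MM s D < T → ∀ Λ : (Fin s → ℕ) → ℚ,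
  (∀ i < MM s D * m + MM s D * MM s D * s + 2 * MM s D - T,
    ∑ e ∈ II s D, Λ e * (nabI b i A e).eval z0 = 0) → ∀ e ∈ II s D, Λ e = 0

/-- from the local expansion to the iterates of the derivation -/
def T_GSP : Prop := ∀ (s D : ℕ) (b : Fin s → ℚ) (z0 : ℚ) (A : Vec s), Sup D A →
  (∀ k, 1 + b k * z0 ≠ 0) → ∀ (Λ : (Fin s → ℕ) → ℚ) (n : ℕ),
  (∀ i < n, ∑ e ∈ II s D, Λ e * Gc b z0 D A i e = 0) →
  ∀ i < n, ∑ e ∈ II s D, Λ e * (nabI b i A e).eval z0 = 0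

/-- arithmetic types multiply -/
def T_TYM : Prop := ∀ (q : ℤ) (t u : ℕ) (g h : PowerSeries ℚ), Typ q t g → Typ q u h →
  Typ q (t + u) (g * h)

def T_TYL : Prop := ∀ (q : ℤ) (c : ℚ), (∃ z : ℤ, (q : ℚ) * c = z) → Typ q 1 (lg c)

/-- denominators of the coefficients of the local expansions -/
def T_TYG : Prop := ∀ (s D m N : ℕ) (b : Fin s → ℕ) (A : Vec s), 1 ≤ N → Deg m A →
  (∀ e j, ∃ z : ℤ, (A e).coeff j = z) → ∀ (i : ℕ) (e' : Fin s → ℕ), ∃ z : ℤ,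
  (N : ℚ) ^ m * (∏ k, ((N : ℚ) + b k)) ^ i * (Nat.lcmUpto i : ℚ) ^ D *
    Gc (fun k => (b k : ℚ)) (1 / N) D A i e' = z

/-- majorants multiply -/
def T_MJM : Prop := ∀ (K L ρ : ℝ) (g h : PowerSeries ℚ), 0 ≤ ρ → 0 ≤ K → Maj K ρ g →
  Maj L ρ h → Maj (K * L) (2 * ρ) (g * h)

/-- size of the coefficients of the local expansions -/
def T_MJG : Prop := ∀ s D : ℕ, ∃ c : ℕ, 1 ≤ c ∧ ∀ (m N B : ℕ) (b : Fin s → ℕ) (A : Vec s)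
  (a : ℝ), 1 ≤ N → 1 ≤ B → (∀ k, b k ≤ B) → Deg m A → 0 ≤ a →
  (∀ e j, |(((A e).coeff j : ℚ) : ℝ)| ≤ a) → ∀ (i : ℕ) (e' : Fin s → ℕ),
  |((Gc (fun k => (b k : ℚ)) (1 / N) D A i e' : ℚ) : ℝ)| ≤ (c : ℝ) ^ (m + 1) * a * (c * B) ^ i

/-- the auxiliary polynomials, Siegel's lemma -/
def T_SIE : Prop := ∀ s D q0 : ℕ, 2 ≤ q0 → ∃ c : ℕ, 1 ≤ c ∧ ∀ (n B : ℕ) (b : Fin s → ℕ),
  1 ≤ n → 1 ≤ B → (∀ k, b k ≤ B) → ∃ A : Vec s, A ≠ 0 ∧ Sup D A ∧ Deg (q0 * n) A ∧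
  (∀ e j, ∃ z : ℤ, (A e).coeff j = z) ∧
  (∀ e j, |(((A e).coeff j : ℚ) : ℝ)| ≤ ((c : ℝ) * B) ^ (c * n)) ∧
  (PowerSeries.X : PowerSeries ℚ) ^ (MM s D * q0 * n - n) ∣ evf (fun k => (b k : ℚ)) D A

/-- Taylor series of products -/
def T_TAM : Prop := ∀ (z0 : ℂ) (F G : ℂ → ℂ), AnalyticAt ℂ F z0 → AnalyticAt ℂ G z0 →
  Tay z0 (F * G) = Tay z0 F * Tay z0 G ∧ Tay z0 (F + G) = Tay z0 F + Tay z0 G

/-- Taylor series of polynomials -/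
def T_TAP : Prop := ∀ (z0 : ℚ) (p : ℚ[X]), Tay (z0 : ℂ) (fun z => aeval z p) =
  PowerSeries.map (algebraMap ℚ ℂ) ((taylor z0 p : ℚ[X]) : PowerSeries ℚ)

/-- Taylor series of the logarithm -/
def T_TAL : Prop := ∀ b z0 : ℚ, 0 < 1 + b * z0 →
  Tay (z0 : ℂ) (fun z => Complex.log (1 + (b : ℂ) * z)) =
    PowerSeries.C (Complex.log (1 + (b : ℂ) * z0)) + PowerSeries.map (algebraMap ℚ ℂ) (lam b z0)

/-- Taylor series of the auxiliary function -/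
def T_TAR : Prop := ∀ (s D : ℕ) (b : Fin s → ℚ) (z0 : ℚ) (A : Vec s), (∀ k, 0 < 1 + b k * z0) →
  Tay (z0 : ℂ) (RR b D A) = ∑ e ∈ II s D,
    PowerSeries.map (algebraMap ℚ ℂ) ((taylor z0 (A e) : ℚ[X]) : PowerSeries ℚ) *
    ∏ k, (PowerSeries.C (Complex.log (1 + (b k : ℂ) * z0)) +
      PowerSeries.map (algebraMap ℚ ℂ) (lam (b k) z0)) ^ e k

/-- the values of the forms are Taylor coefficients -/
def T_GID : Prop := ∀ (s D : ℕ) (b : Fin s → ℚ) (z0 : ℚ) (A : Vec s), (∀ k, 0 < 1 + b k * z0) →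
  ∀ i : ℕ, ∑ e ∈ II s D, (Gc b z0 D A i e : ℂ) * ∏ k, Complex.log (1 + (b k : ℂ) * z0) ^ e k =
    iteratedDeriv i (RR b D A) z0 / (i.factorial : ℂ)

/-- vanishing at zero -/
def T_VAN : Prop := ∀ (s D T : ℕ) (b : Fin s → ℚ) (A : Vec s),
  (PowerSeries.X : PowerSeries ℚ) ^ T ∣ evf b D A → ∀ j < T, iteratedDeriv j (RR b D A) 0 = 0

/-- the lemma of Schwarz for a zero of order `T` and Cauchy's inequality -/
def T_SCH : Prop := ∀ (F : ℂ → ℂ) (ρ K z0 : ℝ) (T i : ℕ), 0 ≤ K → 0 < z0 → 2 * z0 < ρ →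
  DifferentiableOn ℂ F (Metric.ball 0 ρ) → (∀ z ∈ Metric.ball (0 : ℂ) ρ, ‖F z‖ ≤ K) →
  (∀ j < T, iteratedDeriv j F 0 = 0) →
  ‖iteratedDeriv i F (z0 : ℂ) / (i.factorial : ℂ)‖ ≤ K * (2 * z0 / ρ) ^ T / z0 ^ i

/-- the auxiliary function near zero -/
def T_RRB : Prop := ∀ (s D m B : ℕ) (b : Fin s → ℕ) (A : Vec s) (a : ℝ), 1 ≤ B →
  (∀ k, b k ≤ B) → Deg m A → 0 ≤ a → (∀ e j, |(((A e).coeff j : ℚ) : ℝ)| ≤ a) →
  DifferentiableOn ℂ (RR (fun k => (b k : ℚ)) D A) (Metric.ball 0 (1 / (2 * B))) ∧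
  ∀ z ∈ Metric.ball (0 : ℂ) (1 / (2 * B)),
    ‖RR (fun k => (b k : ℚ)) D A z‖ ≤ MM s D * ((m + 1) * a)

/-- the values of the forms are small -/
def T_VAL : Prop := ∀ s D : ℕ, ∃ c : ℕ, 1 ≤ c ∧ ∀ (m N B T : ℕ) (b : Fin s → ℕ) (A : Vec s)
  (a : ℝ), 1 ≤ B → 4 * B < N → (∀ k, b k ≤ B) → Deg m A → 0 ≤ a →
  (∀ e j, |(((A e).coeff j : ℚ) : ℝ)| ≤ a) →
  (PowerSeries.X : PowerSeries ℚ) ^ T ∣ evf (fun k => (b k : ℚ)) D A → ∀ i : ℕ,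
  ‖∑ e ∈ II s D, (Gc (fun k => (b k : ℚ)) (1 / N) D A i e : ℂ) *
    ∏ k, ((Real.log (1 + b k / N) : ℝ) : ℂ) ^ e k‖ ≤
    (c : ℝ) ^ (m + 1) * a * (c * B / N) ^ T * N ^ i

/-- linear algebra: integer forms which are small at `v` and span -/
def T_LAL : Prop := ∀ (ι : Type) [Fintype ι] [DecidableEq ι] (i0 : ι) (v : ι → ℂ) (p : ι → ℤ)
  (n : ℕ) (Γ : ℕ → ι → ℤ) (H S ε : ℝ), v i0 = 1 → p ≠ 0 → 1 ≤ H → 1 ≤ S → 0 ≤ ε →
  (∀ e, |((p e : ℤ) : ℝ)| ≤ H) → (∀ i < n, ∀ e, |((Γ i e : ℤ) : ℝ)| ≤ S) →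
  (∀ i < n, ‖∑ e, (Γ i e : ℂ) * v e‖ ≤ ε) →
  (∀ Λ : ι → ℚ, (∀ i < n, ∑ e, Λ e * (Γ i e : ℚ) = 0) → Λ = 0) →
  1 ≤ ((Fintype.card ι).factorial : ℝ) * (S ^ (Fintype.card ι - 1) * ‖∑ e, (p e : ℂ) * v e‖ +
    Fintype.card ι * H * S ^ (Fintype.card ι - 2) * ε)

def T_LCM : Prop := ∀ n : ℕ, (Nat.lcmUpto n : ℝ) ≤ 219 ^ n

/-- evaluation of polynomials as a sum over `II` -/
def T_MVP : Prop := ∀ (s D : ℕ) (P : MvPolynomial (Fin s) ℤ), P.totalDegree ≤ D →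
  (∀ y : Fin s → ℂ, MvPolynomial.aeval y P =
    ∑ e ∈ II s D, ((P.coeff (Finsupp.equivFunOnFinite.symm e) : ℤ) : ℂ) * ∏ k, y k ^ e k) ∧
  (P ≠ 0 → ∃ e ∈ II s D, P.coeff (Finsupp.equivFunOnFinite.symm e) ≠ 0)

/-- THEOREM (G): polynomials in the logarithms of close integers -/
def T_GIN : Prop := ∀ s D : ℕ, ∃ (δ : ℝ) (N₁ : ℕ) (C : ℝ), 0 < δ ∧ 0 < C ∧
  ∀ N : ℕ, N₁ ≤ N → ∀ b : Fin s → ℕ, Function.Injective b → (∀ k, b k ≠ 0) →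
  (∀ k, (b k : ℝ) ≤ (N : ℝ) ^ δ) → ∀ H : ℝ, (N : ℝ) ≤ H →
  ∀ P : MvPolynomial (Fin s) ℤ, P ≠ 0 → P.totalDegree ≤ D →
  (∀ m : Fin s →₀ ℕ, |((P.coeff m : ℤ) : ℝ)| ≤ H) →
  1 ≤ H ^ C * ‖MvPolynomial.aeval (fun k => ((Real.log (1 + b k / N) : ℝ) : ℂ)) P‖

/-- the exponent of the number of derivatives -/
def c3 (s D : ℕ) : ℕ := MM s D * MM s D * s + 2 * MM s D

/-- the bound for the coefficients of the forms -/
def SS (s D q0 c n N B : ℕ) : ℝ :=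
  (N : ℝ) ^ (q0 * n + s * (n + c3 s D)) * ((c : ℝ) * B) ^ (c * n)

/-- the bound for the values of the forms -/
def EE (s D q0 c n N B : ℕ) : ℝ :=
  (N : ℝ) ^ (q0 * n + (s + 1) * (n + c3 s D)) * ((c : ℝ) * B) ^ (c * n) /
    (N : ℝ) ^ (MM s D * q0 * n - n)

/-- the inequality of the determinant, for every parameter `n` -/
def T_PR1 : Prop := ∀ s D q0 : ℕ, 2 ≤ q0 → ∃ c : ℕ, 1 ≤ c ∧ ∀ (n N B : ℕ) (b : Fin s → ℕ),
  1 ≤ n → 1 ≤ B → 4 * B < N → Function.Injective b → (∀ k, b k ≠ 0) → (∀ k, b k ≤ B) →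
  MM s D * MM s D * s + MM s D < (q0 - 1) * n → ∀ (H : ℝ) (P : MvPolynomial (Fin s) ℤ),
  1 ≤ H → P ≠ 0 → P.totalDegree ≤ D → (∀ m : Fin s →₀ ℕ, |((P.coeff m : ℤ) : ℝ)| ≤ H) →
  1 ≤ ((MM s D).factorial : ℝ) * (SS s D q0 c n N B ^ (MM s D - 1) *
    ‖MvPolynomial.aeval (fun k => ((Real.log (1 + b k / N) : ℝ) : ℂ)) P‖ +
    MM s D * H * SS s D q0 c n N B ^ (MM s D - 2) * EE s D q0 c n N B)

/-- choice of the parameters -/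
def T_PR2 : Prop := T_PR1 → T_GIN

end

end Pool.Agent.H85.PS
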