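import Pool.Agent.H85.PS.Targets

/-!
Module PR1 of the board psv_modules (MP_3cf473_nt), helper85: the inequality of the determinant.
-/

set_option autoImplicit false

open Polynomial Finset

namespace Pool.Agent.H85.PS

/-- products of powers of small numbers -/
theorem pow_bd (X x : ℝ) (hx0 : 0 ≤ x) (hx : x ≤ X) (hX : 1 ≤ X) (i k : ℕ) (h : i ≤ k) :
    x ^ i ≤ X ^ k :=
  (pow_le_pow_left₀ hx0 hx i).trans (pow_le_pow_right₀ hX h)

theorem Q_bd (s N B : ℕ) (b : Fin s → ℕ) (hN : 1 ≤ N) (hBN : B ≤ N) (hb : ∀ k, b k ≤ B) :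
    (1 : ℝ) ≤ ∏ k, ((N : ℝ) + b k) ∧ ∏ k, ((N : ℝ) + b k) ≤ (2 * N) ^ s := by
  have hN1 : (1 : ℝ) ≤ N := by exact_mod_cast hN
  constructor
  · calc (1 : ℝ) = ∏ _k : Fin s, (1 : ℝ) := by simp
      _ ≤ ∏ k, ((N : ℝ) + b k) := by
        refine Finset.prod_le_prod (fun _ _ => zero_le_one) fun k _ => ?_
        have : (0 : ℝ) ≤ b k := Nat.cast_nonneg _
        linarith
  · have h : ∏ k, ((N : ℝ) + b k) ≤ ∏ _k : Fin s, (2 * (N : ℝ)) := by
      apply Finset.prod_le_prod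
      · intro k _
        have : (0 : ℝ) ≤ b k := Nat.cast_nonneg _
        linarith
      · intro k _
        have : (b k : ℝ) ≤ N := by exact_mod_cast (hb k).trans hBN
        linarith
    refine h.trans (le_of_eq ?_)
    simp

theorem pf_PR1 (h1 : T_SIE) (h2 : T_SPF) (h3 : T_GSP) (h4 : T_TYG) (h5 : T_MJG) (h6 : T_VAL)
    (h7 : T_LAL) (h8 : T_LCM) (h9 : T_MVP) : T_PR1 := by
  classical
  intro s D q0 hq0
  obtain ⟨cS, hcS, hS⟩ := h1 s D q0 hq0
  obtain ⟨c5, hc5, h5'⟩ := h5 s D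
  obtain ⟨c6, hc6, h6'⟩ := h6 s D
  set M := MM s D with hM
  set K := c3 s D with hK
  have hM1 : 1 ≤ M := by
    have : (0 : Fin s → ℕ) ∈ II s D := by
      simp [II]
    exact Finset.card_pos.2 ⟨_, this⟩
  -- the constants
  set c0 : ℕ := 438 * c5 * cS * c6 with hc0
  set E0 : ℕ := s * (1 + K) + D * (1 + K) + (q0 + 1) + cS + (1 + K) + M * q0 with hE0
  refine ⟨c0 + E0, by
    have : 1 ≤ c0 := by
      rw [hc0]
      exact Nat.one_le_iff_ne_zero.2 (by positivity)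
    omega, ?_⟩
  intro n N B b hn hB hBN hbi hb0 hbB hpar H P hH hP hPD hPc
  set m := q0 * n with hm
  set T := M * q0 * n - n with hT
  have hN1 : 1 ≤ N := by omega
  have hNR : (1 : ℝ) ≤ N := by exact_mod_cast hN1
  have hBR : (1 : ℝ) ≤ B := by exact_mod_cast hB
  have hTle : T ≤ M * q0 * n := Nat.sub_le _ _
  have hTn : T + n = M * q0 * n := by
    rw [hT]
    refine Nat.sub_add_cancel ?_
    calc n = 1 * n := (one_mul n).symm
      _ ≤ M * q0 * n := Nat.mul_le_mul_right n (by nlinarith)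
  obtain ⟨A, hA0, hAS, hAD, hAi, hAb, hAX⟩ := hS n B b hn hB hbB
  set a : ℝ := ((cS : ℝ) * B) ^ (cS * n) with ha
  have ha0 : 0 ≤ a := by positivity
  choose G hG using fun (i : ℕ) (e : Fin s → ℕ) => h4 s D m N b A hN1 hAD hAi i e
  -- the base
  set X : ℝ := (c0 : ℝ) * B with hX
  have hc5R : (1 : ℝ) ≤ c5 := by exact_mod_cast hc5
  have hc6R : (1 : ℝ) ≤ c6 := by exact_mod_cast hc6
  have hcSR : (1 : ℝ) ≤ cS := by exact_mod_cast hcS
  have hc5n : c5 ≤ c0 := by
    rw [hc0]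
    calc c5 = 1 * c5 * 1 * 1 := by ring
      _ ≤ 438 * c5 * cS * c6 :=
        Nat.mul_le_mul (Nat.mul_le_mul (Nat.mul_le_mul (by norm_num) le_rfl) hcS) hc6
  have hc6n : c6 ≤ c0 := by
    rw [hc0]
    calc c6 = 1 * 1 * 1 * c6 := by ring
      _ ≤ 438 * c5 * cS * c6 :=
        Nat.mul_le_mul (Nat.mul_le_mul (Nat.mul_le_mul (by norm_num) hc5) hcS) le_rfl
  have hcSn : cS ≤ c0 := by
    rw [hc0]
    calc cS = 1 * 1 * cS * 1 := by ring
      _ ≤ 438 * c5 * cS * c6 :=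
        Nat.mul_le_mul (Nat.mul_le_mul (Nat.mul_le_mul (by norm_num) hc5) le_rfl) hc6
  have hc438 : 438 ≤ c0 := by
    rw [hc0]
    calc 438 = 438 * 1 * 1 * 1 := by ring
      _ ≤ 438 * c5 * cS * c6 :=
        Nat.mul_le_mul (Nat.mul_le_mul (Nat.mul_le_mul le_rfl hc5) hcS) hc6
  have hX5 : (c5 : ℝ) * B ≤ X :=
    mul_le_mul_of_nonneg_right (by exact_mod_cast hc5n) (by linarith)
  have hX6 : (c6 : ℝ) * B ≤ X :=
    mul_le_mul_of_nonneg_right (by exact_mod_cast hc6n) (by linarith)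
  have hXS : (cS : ℝ) * B ≤ X :=
    mul_le_mul_of_nonneg_right (by exact_mod_cast hcSn) (by linarith)
  have hX438 : (438 : ℝ) ≤ X := by
    have h1 : (438 : ℝ) ≤ c0 := by exact_mod_cast hc438
    calc (438 : ℝ) = 438 * 1 := by ring
      _ ≤ (c0 : ℝ) * B := mul_le_mul h1 hBR zero_le_one (by linarith)
  have hX1 : (1 : ℝ) ≤ X := by linarith
  have hX5' : (c5 : ℝ) ≤ X := le_trans (by nlinarith) hX5
  have hX6' : (c6 : ℝ) ≤ X := le_trans (by nlinarith) hX6
  -- the number of derivatives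
  set w := n + K with hw
  have hw1 : w ≤ (1 + K) * n := by
    rw [hw]; nlinarith
  have hm1 : m + 1 ≤ (q0 + 1) * n := by
    rw [hm]; nlinarith
  obtain ⟨hQ1, hQ2⟩ := Q_bd s N B b hN1 (by omega) hbB
  set Q : ℝ := ∏ k, ((N : ℝ) + b k) with hQ
  -- common factor
  have hfac : ∀ i, i ≤ w → Q ^ i * ((Nat.lcmUpto i : ℕ) : ℝ) ^ D ≤
      (N : ℝ) ^ (s * w) * X ^ ((s * (1 + K) + D * (1 + K)) * n) := by
    intro i hi
    have e1 : Q ^ i ≤ (N : ℝ) ^ (s * w) * X ^ (s * (1 + K) * n) := by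
      calc Q ^ i ≤ ((2 * (N : ℝ)) ^ s) ^ i := pow_le_pow_left₀ (by linarith) hQ2 i
        _ = (N : ℝ) ^ (s * i) * 2 ^ (s * i) := by rw [← pow_mul, mul_pow, mul_comm]
        _ ≤ (N : ℝ) ^ (s * w) * X ^ (s * (1 + K) * n) := by
          refine mul_le_mul (pow_le_pow_right₀ hNR (Nat.mul_le_mul_left s hi)) ?_
            (by positivity) (by positivity)
          refine pow_bd X 2 (by norm_num) (by linarith) hX1 _ _ ?_
          calc s * i ≤ s * ((1 + K) * n) := Nat.mul_le_mul_left s (hi.trans hw1)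
            _ = s * (1 + K) * n := by ring
    have e2 : ((Nat.lcmUpto i : ℕ) : ℝ) ^ D ≤ X ^ (D * (1 + K) * n) := by
      calc ((Nat.lcmUpto i : ℕ) : ℝ) ^ D ≤ ((219 : ℝ) ^ i) ^ D :=
            pow_le_pow_left₀ (Nat.cast_nonneg _) (h8 i) D
        _ = 219 ^ (i * D) := by rw [← pow_mul]
        _ ≤ X ^ (D * (1 + K) * n) := by
          refine pow_bd X 219 (by norm_num) (by linarith) hX1 _ _ ?_
          calc i * D ≤ ((1 + K) * n) * D := Nat.mul_le_mul_right D (hi.trans hw1)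
            _ = D * (1 + K) * n := by ring
    calc Q ^ i * ((Nat.lcmUpto i : ℕ) : ℝ) ^ D ≤
        ((N : ℝ) ^ (s * w) * X ^ (s * (1 + K) * n)) * X ^ (D * (1 + K) * n) :=
          mul_le_mul e1 e2 (by positivity) (by positivity)
      _ = (N : ℝ) ^ (s * w) * X ^ ((s * (1 + K) + D * (1 + K)) * n) := by
        rw [mul_assoc, ← pow_add]
        congr 2
        ring
  have haX : a ≤ X ^ (cS * n) := pow_le_pow_left₀ (by positivity) hXS _
  -- the final base
  have hXc : X ≤ ((c0 + E0 : ℕ) : ℝ) * B := by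
    rw [hX]
    refine mul_le_mul_of_nonneg_right ?_ (by linarith)
    push_cast
    have : (0 : ℝ) ≤ E0 := Nat.cast_nonneg _
    linarith
  have hfin : X ^ (E0 * n) ≤ (((c0 + E0 : ℕ) : ℝ) * B) ^ ((c0 + E0) * n) := by
    refine pow_bd _ X (by linarith) hXc (hX1.trans hXc) _ _ ?_
    exact Nat.mul_le_mul_right n (by omega)
  have hSS0 : 0 ≤ SS s D q0 (c0 + E0) n N B := by unfold SS; positivity
  have hSS1 : 1 ≤ SS s D q0 (c0 + E0) n N B := by
    unfold SS
    exact one_le_mul_of_one_le_of_one_le (one_le_pow₀ hNR) (one_le_pow₀ (hX1.trans hXc))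
  have hEE0 : 0 ≤ EE s D q0 (c0 + E0) n N B := by unfold EE; positivity
  -- the integer forms in terms of the rational coefficients
  have hGR : ∀ i e, ((G i e : ℤ) : ℝ) = (N : ℝ) ^ m * Q ^ i * ((Nat.lcmUpto i : ℕ) : ℝ) ^ D *
      ((Gc (fun k => (b k : ℚ)) (1 / N) D A i e : ℚ) : ℝ) := by
    intro i e
    have := congrArg (Rat.cast : ℚ → ℝ) (hG i e)
    push_cast at this
    rw [← this, hQ]
  have hGC : ∀ i e, ((G i e : ℤ) : ℂ) = (((N : ℝ) ^ m * Q ^ i * ((Nat.lcmUpto i : ℕ) : ℝ) ^ D : ℝ)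
      : ℂ) * (Gc (fun k => (b k : ℚ)) (1 / N) D A i e : ℂ) := by
    intro i e
    have h := hGR i e
    have h' : ((G i e : ℤ) : ℂ) = (((G i e : ℤ) : ℝ) : ℂ) := by push_cast; rfl
    rw [h', h]
    push_cast
    ring
  have hGb : ∀ i, i ≤ w → ∀ e, |((G i e : ℤ) : ℝ)| ≤ SS s D q0 (c0 + E0) n N B := by
    intro i hi e
    have e1 := h5' m N B b A a hN1 hB hbB hAD ha0 hAb i e
    rw [hGR, abs_mul, abs_of_nonneg (by positivity : (0 : ℝ) ≤ (N : ℝ) ^ m * Q ^ i *
      ((Nat.lcmUpto i : ℕ) : ℝ) ^ D)]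
    have e2 : (c5 : ℝ) ^ (m + 1) * a * (c5 * B) ^ i ≤
        X ^ ((q0 + 1) * n) * X ^ (cS * n) * X ^ ((1 + K) * n) := by
      refine mul_le_mul (mul_le_mul ?_ haX ha0 (by positivity)) ?_ (by positivity) (by positivity)
      · exact pow_bd X c5 (by linarith) hX5' hX1 _ _ hm1
      · exact pow_bd X _ (by positivity) hX5 hX1 _ _ (hi.trans hw1)
    calc (N : ℝ) ^ m * Q ^ i * ((Nat.lcmUpto i : ℕ) : ℝ) ^ D *
          |((Gc (fun k => (b k : ℚ)) (1 / N) D A i e : ℚ) : ℝ)|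
        = (N : ℝ) ^ m * (Q ^ i * ((Nat.lcmUpto i : ℕ) : ℝ) ^ D) *
          |((Gc (fun k => (b k : ℚ)) (1 / N) D A i e : ℚ) : ℝ)| := by ring
      _ ≤ (N : ℝ) ^ m * ((N : ℝ) ^ (s * w) * X ^ ((s * (1 + K) + D * (1 + K)) * n)) *
          (X ^ ((q0 + 1) * n) * X ^ (cS * n) * X ^ ((1 + K) * n)) := by
        refine mul_le_mul (mul_le_mul_of_nonneg_left (hfac i hi) (by positivity)) (e1.trans e2)
          (abs_nonneg _) (by positivity)
      _ = (N : ℝ) ^ (q0 * n + s * (n + K)) *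
          X ^ ((s * (1 + K) + D * (1 + K) + (q0 + 1) + cS + (1 + K)) * n) := by
        rw [hm, hw]
        ring
      _ ≤ (N : ℝ) ^ (q0 * n + s * (n + K)) * X ^ (E0 * n) := by
        refine mul_le_mul_of_nonneg_left (pow_le_pow_right₀ hX1 (Nat.mul_le_mul_right n ?_))
          (by positivity)
        rw [hE0]
        omega
      _ ≤ SS s D q0 (c0 + E0) n N B := by
        unfold SS
        exact mul_le_mul_of_nonneg_left hfin (by positivity)
  -- the values
  set v : (Fin s → ℕ) → ℂ := fun e => ∏ k, ((Real.log (1 + b k / N) : ℝ) : ℂ) ^ e k with hv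
  have hGv : ∀ i, i ≤ w → ‖∑ e ∈ II s D, ((G i e : ℤ) : ℂ) * v e‖ ≤
      EE s D q0 (c0 + E0) n N B := by
    intro i hi
    have e1 := h6' m N B T b A a hB hBN hbB hAD ha0 hAb hAX i
    have e0 : ∑ e ∈ II s D, ((G i e : ℤ) : ℂ) * v e =
        (((N : ℝ) ^ m * Q ^ i * ((Nat.lcmUpto i : ℕ) : ℝ) ^ D : ℝ) : ℂ) *
        ∑ e ∈ II s D, (Gc (fun k => (b k : ℚ)) (1 / N) D A i e : ℂ) *
          ∏ k, ((Real.log (1 + b k / N) : ℝ) : ℂ) ^ e k := by
      rw [Finset.mul_sum]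
      refine Finset.sum_congr rfl fun e _ => ?_
      rw [hGC, hv]
      ring
    rw [e0, norm_mul, Complex.norm_real, Real.norm_of_nonneg (by positivity)]
    have e2 : (c6 : ℝ) ^ (m + 1) * a * (c6 * B / N) ^ T * N ^ i ≤
        X ^ ((q0 + 1) * n) * X ^ (cS * n) * (X ^ (M * q0 * n) / (N : ℝ) ^ T) * N ^ w := by
      refine mul_le_mul (mul_le_mul (mul_le_mul ?_ haX ha0 (by positivity)) ?_ (by positivity)
        (by positivity)) (pow_le_pow_right₀ hNR hi) (by positivity) (by positivity)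
      · exact pow_bd X c6 (by linarith) hX6' hX1 _ _ hm1
      · rw [div_pow]
        exact div_le_div_of_nonneg_right (pow_bd X _ (by positivity) hX6 hX1 _ _ hTle)
          (by positivity)
    calc (N : ℝ) ^ m * Q ^ i * ((Nat.lcmUpto i : ℕ) : ℝ) ^ D *
          ‖∑ e ∈ II s D, (Gc (fun k => (b k : ℚ)) (1 / N) D A i e : ℂ) *
            ∏ k, ((Real.log (1 + b k / N) : ℝ) : ℂ) ^ e k‖
        = (N : ℝ) ^ m * (Q ^ i * ((Nat.lcmUpto i : ℕ) : ℝ) ^ D) *
          ‖∑ e ∈ II s D, (Gc (fun k => (b k : ℚ)) (1 / N) D A i e : ℂ) *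
            ∏ k, ((Real.log (1 + b k / N) : ℝ) : ℂ) ^ e k‖ := by ring
      _ ≤ (N : ℝ) ^ m * ((N : ℝ) ^ (s * w) * X ^ ((s * (1 + K) + D * (1 + K)) * n)) *
          (X ^ ((q0 + 1) * n) * X ^ (cS * n) * (X ^ (M * q0 * n) / (N : ℝ) ^ T) * N ^ w) := by
        refine mul_le_mul (mul_le_mul_of_nonneg_left (hfac i hi) (by positivity)) (e1.trans e2)
          (norm_nonneg _) (by positivity)
      _ = (N : ℝ) ^ (q0 * n + (s + 1) * (n + K)) *
          X ^ ((s * (1 + K) + D * (1 + K) + (q0 + 1) + cS + M * q0) * n) / (N : ℝ) ^ T := by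
        rw [hm, hw]
        ring
      _ ≤ (N : ℝ) ^ (q0 * n + (s + 1) * (n + K)) * X ^ (E0 * n) / (N : ℝ) ^ T := by
        refine div_le_div_of_nonneg_right (mul_le_mul_of_nonneg_left (pow_le_pow_right₀ hX1
          (Nat.mul_le_mul_right n ?_)) (by positivity)) (by positivity)
        rw [hE0]
        omega
      _ ≤ EE s D q0 (c0 + E0) n N B := by
        unfold EE
        exact div_le_div_of_nonneg_right (mul_le_mul_of_nonneg_left hfin (by positivity))
          (by positivity)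
  -- the polynomial
  obtain ⟨hPv, hPn⟩ := h9 s D P hPD
  obtain ⟨e0, he0, hPe0⟩ := hPn hP
  set p : (Fin s → ℕ) → ℤ := fun e => P.coeff (Finsupp.equivFunOnFinite.symm e) with hp
  have hz : (0 : Fin s → ℕ) ∈ II s D := by simp [II]
  have hcard : Fintype.card {e // e ∈ II s D} = M := by
    rw [Fintype.card_coe]; rfl
  -- span
  have hspan : ∀ Λ : {e // e ∈ II s D} → ℚ, (∀ i < w, ∑ e, Λ e * ((G i e : ℤ) : ℚ) = 0) →
      Λ = 0 := by
    intro Λ hΛ
    set L : (Fin s → ℕ) → ℚ := fun e => if h : e ∈ II s D then Λ ⟨e, h⟩ else 0 with hL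
    have hLe : ∀ e : {e // e ∈ II s D}, L e = Λ e := fun e => by
      rw [hL]; simp
    have hz0 : (1 / (N : ℚ)) ≠ 0 := by positivity
    have hpos : ∀ k, 0 < 1 + (b k : ℚ) * (1 / N) := fun k => by positivity
    have hth : (th (fun k => (b k : ℚ))).eval (1 / (N : ℚ)) ≠ 0 := by
      unfold th
      rw [eval_prod]
      refine Finset.prod_ne_zero_iff.2 fun k _ => ?_
      simp only [eval_add, eval_one, eval_mul, eval_C, eval_X]
      exact (hpos k).ne'
    have hsum : ∀ i < w, ∑ e ∈ II s D, L e * Gc (fun k => (b k : ℚ)) (1 / N) D A i e = 0 := by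
      intro i hi
      have h := hΛ i hi
      have hne : ((N : ℚ) ^ m * (∏ k, ((N : ℚ) + b k)) ^ i * (Nat.lcmUpto i : ℚ) ^ D) ≠ 0 := by
        have h1 : (0 : ℚ) < N := by exact_mod_cast hN1
        have h2 : (0 : ℚ) < ∏ k, ((N : ℚ) + b k) :=
          Finset.prod_pos fun k _ => by positivity
        have h3 : (0 : ℚ) < Nat.lcmUpto i := by exact_mod_cast Nat.lcmUpto_pos i
        positivity
      have h4 : ((N : ℚ) ^ m * (∏ k, ((N : ℚ) + b k)) ^ i * (Nat.lcmUpto i : ℚ) ^ D) *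
          ∑ e ∈ II s D, L e * Gc (fun k => (b k : ℚ)) (1 / N) D A i e = 0 := by
        rw [Finset.mul_sum, ← h, ← Finset.sum_coe_sort (II s D)]
        refine Finset.sum_congr rfl fun e _ => ?_
        rw [← hG i e, hLe]
        ring
      exact (mul_eq_zero.1 h4).resolve_left hne
    have hsp := h3 s D (fun k => (b k : ℚ)) (1 / N) A hAS (fun k => (hpos k).ne') L w hsum
    have hcount : M * m + M * M * s + 2 * M - T = w := by
      have e1 : M * m = T + n := by rw [hTn, hm]; ring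
      rw [e1, hw, hK, c3, ← hM]
      omega
    have hlt : (M - 1) * m + M * M * s + M < T := by
      have e1 : M * m = T + n := by rw [hTn, hm]; ring
      have e2 : (M - 1) * m + m = M * m := by
        obtain ⟨M', hM'⟩ : ∃ M', M = M' + 1 := ⟨M - 1, by omega⟩
        rw [hM']
        simp only [Nat.add_sub_cancel]
        ring
      have e3 : (q0 - 1) * n + n = m := by
        obtain ⟨q', hq'⟩ : ∃ q', q0 = q' + 1 := ⟨q0 - 1, by omega⟩
        rw [hm, hq']
        simp only [Nat.add_sub_cancel]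
        ring
      omega
    have hfinal := h2 s D m T (fun k => (b k : ℚ)) (fun i j hij => hbi (by
        have h' : (b i : ℚ) = b j := hij
        exact_mod_cast h'))
      (fun k => by exact_mod_cast hb0 k) A (1 / N) hz0 hth hAS hAD hA0 hAX hlt L (by
        intro i hi
        rw [← hM, hcount] at hi
        exact hsp i hi)
    funext e
    rw [← hLe e]
    exact hfinal e e.2
  have hmain := h7 {e // e ∈ II s D} ⟨0, hz⟩ (fun e => v e) (fun e => p e) w
    (fun i e => G i e) H (SS s D q0 (c0 + E0) n N B) (EE s D q0 (c0 + E0) n N B)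
    (by simp [hv]) (fun h => hPe0 (by
      have := congrFun h ⟨e0, he0⟩
      simpa [hp] using this)) hH hSS1 hEE0 (fun e => hPc _)
    (fun i hi e => hGb i hi.le e) (fun i hi => by
      have := hGv i hi.le
      rw [← Finset.sum_coe_sort (II s D)] at this
      exact this) hspan
  rw [hcard] at hmain
  have hval : ∑ e : {e // e ∈ II s D}, ((p e : ℤ) : ℂ) * v e =
      MvPolynomial.aeval (fun k => ((Real.log (1 + b k / N) : ℝ) : ℂ)) P := by
    rw [hPv, ← Finset.sum_coe_sort (II s D)]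
  rw [hval] at hmain
  exact hmain

end Pool.Agent.H85.PS
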