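import Pool.Agent.H65.PS.LEI
import Pool.Agent.H65.PS.SPD
import Pool.Agent.H19.PSV.EVI
import Pool.Agent.H60.PSV.EVN
import Pool.Agent.H94.PSV.PL1
import Pool.Agent.H60.PSV.PL2
import Pool.Agent.H12.PSV.ONE
import Pool.Agent.H12.PSV.RNK
import Pool.Agent.H85.PS.CYC
import Pool.Agent.H34.PS.DDV
import Pool.Agent.H19.PSV.SPF
import Pool.Agent.H83.PSV.GSP
import Pool.Agent.H70.PS.TYM
import Pool.Agent.H89.PSV.TYL
import Pool.Agent.H79.PS.TYG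
import Pool.Agent.H19.PSV.MJM
import Pool.Agent.H83.PSV.MJG
import Pool.Agent.H39.PS.SIE
import Pool.Agent.H19.PSV.TAM
import Pool.Agent.H19.PSV.TAP
import Pool.Agent.H34.PS.TAL
import Pool.Agent.H25.PSV.TAR
import Pool.Agent.H25.PSV.GID
import Pool.Agent.H94.PSV.VAN
import Pool.Agent.H19.PSV.VAL
import Pool.Agent.H83.PSV.LAL
import Pool.Agent.H19.PSV.LCM
import Pool.Agent.H25.PSV.MVP
import Pool.Agent.H85.PS.PR1
import Pool.Agent.H13.PSV.PR2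
import Pool.Agent.H95.PSV.SCH
import Pool.Agent.H47.PSV.SPZ

/-!
Assembly of part C of the board psv_modules (MP_3cf473_nt): the theorem `T_GIN` on polynomials in
the logarithms of close integers.
-/

set_option autoImplicit false

namespace Pool.Agent.H85.PS.All

open Pool.Agent.H85.PS

theorem tONE : T_ONE := Pool.Agent.H12.PSV.pf_ONE Pool.Agent.H65.PS.pf_LEI
  Pool.Agent.H94.PSV.pf_PL1 Pool.Agent.H60.PSV.pf_PL2

theorem tCYC : T_CYC := Pool.Agent.H85.PS.pf_CYC Pool.Agent.H65.PS.pf_LEI tONE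

theorem tSPD : T_SPD := Pool.Agent.H65.PS.pf_SPD

theorem tEVI : T_EVI := Pool.Agent.H19.PSV.pf_EVI Pool.Agent.H60.PSV.pf_EVN tSPD

theorem tRNK : T_RNK := Pool.Agent.H12.PSV.pf_RNK tSPD tEVI tCYC

theorem tDDV : T_DDV := Pool.Agent.H34.PS.pf_DDV tSPD tEVI

theorem tSPZ : T_SPZ := Pool.Agent.H47.PSV.pf_SPZ Pool.Agent.H65.PS.pf_LEI

theorem tSPF : T_SPF := Pool.Agent.H19.PSV.pf_SPF tRNK tDDV tSPZ

theorem tGSP : T_GSP := Pool.Agent.H83.PSV.pf_GSP tSPD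

theorem tTYG : T_TYG := Pool.Agent.H79.PS.pf_TYG Pool.Agent.H70.PS.pf_TYM
  Pool.Agent.H89.PSV.pf_TYL

theorem tMJG : T_MJG := Pool.Agent.H83.PSV.pf_MJG Pool.Agent.H19.PSV.pf_MJM

theorem tSIE : T_SIE := Pool.Agent.H39.PS.pf_SIE Pool.Agent.H19.PSV.pf_MJM
  Pool.Agent.H70.PS.pf_TYM Pool.Agent.H89.PSV.pf_TYL Pool.Agent.H19.PSV.pf_LCM

theorem tTAR : T_TAR := Pool.Agent.H25.PSV.pf_TAR Pool.Agent.H19.PSV.pf_TAM
  Pool.Agent.H19.PSV.pf_TAP Pool.Agent.H34.PS.pf_TAL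

theorem tGID : T_GID := Pool.Agent.H25.PSV.pf_GID tTAR

theorem tVAN : T_VAN := Pool.Agent.H94.PSV.pf_VAN tTAR

theorem tVAL : T_VAL := Pool.Agent.H19.PSV.pf_VAL tGID tVAN Pool.Agent.H95.PSV.pf_SCH
  Pool.Agent.H95.PSV.pf_RRB

theorem tPR1 : T_PR1 :=
  Pool.Agent.H85.PS.pf_PR1 tSIE tSPF tGSP tTYG tMJG tVAL Pool.Agent.H83.PSV.pf_LAL
    Pool.Agent.H19.PSV.pf_LCM Pool.Agent.H25.PSV.pf_MVP

/-- THEOREM (G): polynomials in the logarithms of close integers -/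
theorem tGIN : T_GIN := Pool.Agent.H13.PSV.pf_PR2 tPR1

end Pool.Agent.H85.PS.All
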