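import Mathlib

/-!
# Logarithms of close integers (MP_3cf473_nt): definitions for the G-function argument

`b k` are distinct nonzero rational numbers, `f k = log (1 + b k z)`.  A vector `A` gives the
auxiliary function `∑ A e (z) f ^ e`, the sum over the exponents `e` of total degree at most `D`.
-/

set_option autoImplicit false

open Polynomial Finset

namespace Pool.Agent.H85.PS

noncomputable section

/-- the exponents of total degree at most `D` -/
def II (s D : ℕ) : Finset (Fin s → ℕ) :=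
  (Fintype.piFinset fun _ => Finset.range (D + 1)).filter (fun e => ∑ k, e k ≤ D)

/-- the number of exponents -/
def MM (s D : ℕ) : ℕ := (II s D).card

/-- vectors of polynomials -/
abbrev Vec (s : ℕ) := (Fin s → ℕ) → ℚ[X]

/-- no components of degree above `D` -/
def Sup {s : ℕ} (D : ℕ) (A : Vec s) : Prop := ∀ e, D < ∑ k, e k → A e = 0

/-- all polynomials have degree at most `m` -/
def Deg {s : ℕ} (m : ℕ) (A : Vec s) : Prop := ∀ e, (A e).natDegree ≤ m

/-- `∏ (1 + b k X)` -/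
def th {s : ℕ} (b : Fin s → ℚ) : ℚ[X] := ∏ k, (1 + C (b k) * X)

/-- `b k ∏_{j ≠ k} (1 + b j X)` -/
def thk {s : ℕ} (b : Fin s → ℚ) (k : Fin s) : ℚ[X] :=
  C (b k) * ∏ j ∈ univ.erase k, (1 + C (b j) * X)

/-- the derivation: `∏ (1 + b k z)` times `d/dz + ∑ b k / (1 + b k z) ∂/∂Y k`, in coordinates -/
def nab {s : ℕ} (b : Fin s → ℚ) (A : Vec s) : Vec s := fun e =>
  th b * derivative (A e) + ∑ k, thk b k * ((e k + 1 : ℕ) : ℚ[X]) * A (e + Pi.single k 1)

/-- iterates of the derivation -/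
def nabI {s : ℕ} (b : Fin s → ℚ) (i : ℕ) (A : Vec s) : Vec s := (nab b)^[i] A

/-- the power series of `log (1 + b X)` -/
def lg (b : ℚ) : PowerSeries ℚ := PowerSeries.mk fun n => (-1) ^ (n + 1) * b ^ n / n

/-- the auxiliary function as a formal power series -/
def evf {s : ℕ} (b : Fin s → ℚ) (D : ℕ) (A : Vec s) : PowerSeries ℚ :=
  ∑ e ∈ II s D, ((A e : ℚ[X]) : PowerSeries ℚ) * ∏ k, lg (b k) ^ e k

/-- enumeration of the exponents -/
def Jf (s D : ℕ) : Fin (MM s D) → (Fin s → ℕ) := fun i => ((II s D).equivFin.symm i : Fin s → ℕ)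

/-- the determinant -/
def Dt {s : ℕ} (b : Fin s → ℚ) (D : ℕ) (A : Vec s) : ℚ[X] :=
  Matrix.det (Matrix.of fun i j : Fin (MM s D) => nabI b i A (Jf s D j))

/-- the local logarithm: `log (1 + b (z0 + X)) = log (1 + b z0) + lam b z0` -/
def lam (b z0 : ℚ) : PowerSeries ℚ := lg (b / (1 + b * z0))

/-- the coordinate `e'` of the auxiliary polynomial, expanded at the point `z0` -/
def GG {s : ℕ} (b : Fin s → ℚ) (z0 : ℚ) (D : ℕ) (A : Vec s) (e' : Fin s → ℕ) : PowerSeries ℚ :=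
  ∑ e ∈ II s D, ((taylor z0 (A e) : ℚ[X]) : PowerSeries ℚ) *
    (∏ k, ((e k).choose (e' k) : PowerSeries ℚ)) * ∏ k, lam (b k) z0 ^ (e k - e' k)

/-- its coefficients -/
def Gc {s : ℕ} (b : Fin s → ℚ) (z0 : ℚ) (D : ℕ) (A : Vec s) (i : ℕ) (e' : Fin s → ℕ) : ℚ :=
  PowerSeries.coeff i (GG b z0 D A e')

/-- arithmetic type of a power series -/
def Typ (q : ℤ) (t : ℕ) (g : PowerSeries ℚ) : Prop :=
  ∀ i, ∃ z : ℤ, (q : ℚ) ^ i * (Nat.lcmUpto i : ℚ) ^ t * PowerSeries.coeff i g = z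

/-- majorant of a power series -/
def Maj (K ρ : ℝ) (g : PowerSeries ℚ) : Prop :=
  ∀ i, |((PowerSeries.coeff i g : ℚ) : ℝ)| ≤ K * ρ ^ i

/-- the Taylor series of a function at `z0` -/
def Tay (z0 : ℂ) (F : ℂ → ℂ) : PowerSeries ℂ :=
  PowerSeries.mk fun j => iteratedDeriv j F z0 / (j.factorial : ℂ)

/-- the auxiliary function as a function of a complex variable -/
def RR {s : ℕ} (b : Fin s → ℚ) (D : ℕ) (A : Vec s) (z : ℂ) : ℂ :=
  ∑ e ∈ II s D, aeval z (A e) * ∏ k, Complex.log (1 + (b k : ℂ) * z) ^ e k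

end

end Pool.Agent.H85.PS
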